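import Pool.Agent.W8.ST.Stm

/-!
Project ST: reduction of the eigenvalue problems on the second manifold to periodic functions.
-/

open scoped ContDiff

namespace Pool.Agent.W26.ST

open Pool.Agent.W8.ST

noncomputable section

theorem strip_iff (x : V 4) : x ∈ strip 3 ↔ |x 0| ≤ 1 := Iff.rfl

/-- translation by a multiple of the period in one coordinate -/
theorem per_one {u : V 4 → ℝ}
    (h : ∀ x ∈ strip 3, ∀ i : Fin 3, u (x + Pi.single i.succ (2 * Real.pi)) = u x)
    (i : Fin 3) (z : ℤ) : ∀ x ∈ strip 3,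
    u (x + Pi.single i.succ (2 * Real.pi * z)) = u x := by
  have hs : ∀ (x : V 4) (c : ℝ), x ∈ strip 3 → x + Pi.single i.succ c ∈ strip 3 := by
    intro x c hx
    rw [strip_iff] at hx ⊢
    simpa [Pi.single_apply, (Fin.succ_ne_zero i).symm] using hx
  induction z using Int.induction_on with
  | zero => intro x _; simp
  | succ k ih =>
    intro x hx
    have e : x + Pi.single i.succ (2 * Real.pi * (((k : ℤ) + 1 : ℤ) : ℝ)) =
        (x + Pi.single i.succ (2 * Real.pi * ((k : ℤ) : ℝ))) +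
          Pi.single i.succ (2 * Real.pi) := by
      rw [add_assoc, ← Pi.single_add]
      congr 2
      push_cast
      ring
    rw [e, h _ (hs _ _ hx) i, ih x hx]
  | pred k ih =>
    intro x hx
    have e : x + Pi.single i.succ (2 * Real.pi * ((-(k : ℤ) : ℤ) : ℝ)) =
        (x + Pi.single i.succ (2 * Real.pi * ((-(k : ℤ) - 1 : ℤ) : ℝ))) +
          Pi.single i.succ (2 * Real.pi) := by
      rw [add_assoc, ← Pi.single_add]
      congr 2
      push_cast
      ring
    have h1 := ih x hx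
    rw [e, h _ (hs _ _ hx) i] at h1
    exact h1

theorem per_all {u : V 4 → ℝ}
    (h : ∀ x ∈ strip 3, ∀ i : Fin 3, u (x + Pi.single i.succ (2 * Real.pi)) = u x)
    (a b c : ℤ) (x : V 4) (hx : x ∈ strip 3) :
    u ![x 0, x 1 + 2 * Real.pi * a, x 2 + 2 * Real.pi * b, x 3 + 2 * Real.pi * c] = u x := by
  have h1 := per_one h 0 a x hx
  have hx1 : x + Pi.single (0 : Fin 3).succ (2 * Real.pi * (a : ℝ)) ∈ strip 3 := by
    rw [strip_iff] at hx ⊢
    simpa using hx
  have h2 := per_one h 1 b _ hx1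
  have hx2 : x + Pi.single (0 : Fin 3).succ (2 * Real.pi * (a : ℝ)) +
      Pi.single (1 : Fin 3).succ (2 * Real.pi * (b : ℝ)) ∈ strip 3 := by
    rw [strip_iff] at hx ⊢
    simpa using hx
  have h3 := per_one h 2 c _ hx2
  rw [← h1, ← h2, ← h3]
  congr 1
  funext j
  fin_cases j <;> simp

theorem smooth_iff (hD : Deck) (u : V 4 → ℝ) :
    (∀ γ ∈ M2.Γ, ∀ x ∈ strip 3, u (γ x) = u x) ↔
      (∀ x ∈ strip 3, ∀ i : Fin 3, u (x + Pi.single i.succ (2 * Real.pi)) = u x) ∧
        Inv i2 u := by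
  constructor
  · intro h
    refine ⟨fun x hx i => ?_, fun x hx => ?_⟩
    · fin_cases i
      · obtain ⟨γ, hγ, hg⟩ := hD.2.2.2 0 2 0
        rw [← h γ hγ x hx, hg]
        congr 1
        funext j
        fin_cases j <;> simp [gam2]
        ring
      · obtain ⟨γ, hγ, hg⟩ := hD.2.2.2 1 0 0
        rw [← h γ hγ x hx, hg]
        congr 1
        funext j
        fin_cases j <;> simp [gam2]
      · obtain ⟨γ, hγ, hg⟩ := hD.2.2.2 0 0 1
        rw [← h γ hγ x hx, hg]
        congr 1
        funext j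
        fin_cases j <;> simp [gam2]
    · obtain ⟨γ, hγ, hg⟩ := hD.2.2.2 0 1 0
      rw [← h γ hγ x hx, hg]
      congr 1
      funext j
      fin_cases j <;> simp [gam2, i2]
  · rintro ⟨h, hi⟩ γ hγ x hx
    obtain ⟨m, n, k, hg⟩ := hD.2.2.1 γ hγ
    rw [hg]
    rcases Int.even_or_odd' n with ⟨l, hl | hl⟩
    · have e := per_all h l m k x hx
      rw [← e]
      congr 1
      have h2 : (-1 : ℝ) ^ n = 1 := by
        rw [hl, zpow_mul]
        norm_num
      funext j
      fin_cases j
      · simp [gam2]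
      · simp [gam2, hl]; ring
      · simp [gam2, h2]
      · simp [gam2, h2]
    · have hx' : i2 x ∈ strip 3 := by
        rw [strip_iff] at hx ⊢
        simpa [i2] using hx
      have e := per_all h l m k (i2 x) hx'
      rw [← hi x hx, ← e]
      congr 1
      have h2 : (-1 : ℝ) ^ n = -1 := by
        rw [hl, zpow_add₀ (by norm_num), zpow_mul]
        norm_num
      funext j
      fin_cases j
      · simp [gam2, i2]
      · simp [gam2, i2, hl]; ring
      · simp [gam2, i2, h2]
      · simp [gam2, i2, h2]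

theorem q_pos (t : ℝ) : 0 < q t := Real.exp_pos _

theorem Red2_proof : Red2 := by
  intro hD hL
  refine ⟨fun σ u => ?_, fun lam u => ?_⟩
  · constructor
    · rintro ⟨⟨hs, hinv⟩, heq, hb⟩
      obtain ⟨hp, hi⟩ := (smooth_iff hD u).1 hinv
      refine ⟨⟨hs, hp, fun x hx => ?_, fun x hx => ?_⟩, hi⟩
      · have h1 : lap gex u x = 0 := heq x hx
        rw [hL.1 u hs x] at h1
        rcases mul_eq_zero.1 h1 with h2 | h2
        · exact absurd h2 (inv_ne_zero (q_pos _).ne')
        · rw [h2]; ring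
      · have h1 : normalD gex u x = σ * u x := hb x hx
        rw [hL.2 u x hx] at h1
        exact h1
    · rintro ⟨⟨hs, hp, heq, hb⟩, hi⟩
      refine ⟨⟨hs, (smooth_iff hD u).2 ⟨hp, hi⟩⟩, fun x hx => ?_, fun x hx => ?_⟩
      · change lap gex u x = 0
        rw [hL.1 u hs x]
        have h1 := heq x hx
        simp only [zero_mul, add_zero] at h1
        rw [h1, mul_zero]
      · change normalD gex u x = σ * u x
        rw [hL.2 u x hx]
        exact hb x hx
  · constructor
    · rintro ⟨⟨hs, hinv⟩, heq, hb⟩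
      obtain ⟨hp, hi⟩ := (smooth_iff hD u).1 hinv
      refine ⟨⟨hs, hp, fun x hx => ?_, fun x hx => ?_⟩, hi⟩
      · have h1 : -lap gex u x = lam * u x := heq x hx
        rw [hL.1 u hs x] at h1
        have hq := (q_pos (x 0)).ne'
        have h2 : pd 0 (pd 0 u) x + ((q (x 0))⁻¹) ^ 2 * pd 1 (pd 1 u) x +
            q (x 0) ^ 2 * (pd 2 (pd 2 u) x + pd 3 (pd 3 u) x) = -(q (x 0) * (lam * u x)) := by
          rw [← h1]
          generalize pd 0 (pd 0 u) x + ((q (x 0))⁻¹) ^ 2 * pd 1 (pd 1 u) x +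
            q (x 0) ^ 2 * (pd 2 (pd 2 u) x + pd 3 (pd 3 u) x) = A
          rw [mul_neg, neg_neg, ← mul_assoc, mul_inv_cancel₀ hq, one_mul]
        rw [h2]; ring
      · have h1 : normalD gex u x = 0 := hb x hx
        rw [hL.2 u x hx] at h1
        rw [h1, zero_mul]
    · rintro ⟨⟨hs, hp, heq, hb⟩, hi⟩
      refine ⟨⟨hs, (smooth_iff hD u).2 ⟨hp, hi⟩⟩, fun x hx => ?_, fun x hx => ?_⟩
      · change -lap gex u x = lam * u x
        rw [hL.1 u hs x]
        have h1 := heq x hx
        have hq := (q_pos (x 0)).ne'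
        have h2 : pd 0 (pd 0 u) x + ((q (x 0))⁻¹) ^ 2 * pd 1 (pd 1 u) x +
            q (x 0) ^ 2 * (pd 2 (pd 2 u) x + pd 3 (pd 3 u) x) = -(q (x 0) * (lam * u x)) := by
          linarith
        rw [h2, mul_neg, neg_neg, ← mul_assoc, inv_mul_cancel₀ hq, one_mul]
      · change normalD gex u x = 0
        rw [hL.2 u x hx]
        have h1 := hb x hx
        rw [zero_mul] at h1
        exact h1

end

end Pool.Agent.W26.ST
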